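import Pool.Agent.Y920.HN.Stm

/-!
# Project HN, job FILT: closed subgroups of a product of countable discrete groups

Proof by helper768.
-/

set_option autoImplicit false

open MeasureTheory Filter Topology

namespace Pool.Agent.Y768.HN

open Pool.Agent.Y920.HN

/-- the elements which are trivial in the first `n` coordinates -/
def VV {Q : ℕ → Type} [∀ n, Group (Q n)] (H : Subgroup (∀ n, Q n)) (n : ℕ) : Subgroup H where
  carrier := {x | ∀ i < n, (x : ∀ n, Q n) i = 1}
  mul_mem' := by
    intro a b ha hb i hi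
    show (a : ∀ n, Q n) i * (b : ∀ n, Q n) i = 1
    rw [ha i hi, hb i hi, mul_one]
  one_mem' := fun i _ => rfl
  inv_mem' := by
    intro a ha i hi
    show ((a : ∀ n, Q n) i)⁻¹ = 1
    rw [ha i hi, inv_one]

lemma mem_VV {Q : ℕ → Type} [∀ n, Group (Q n)] (H : Subgroup (∀ n, Q n)) (n : ℕ) (x : H) :
    x ∈ VV H n ↔ ∀ i < n, (x : ∀ n, Q n) i = 1 := Iff.rfl

theorem t_FILT : S_FILT := by
  intro Q _ _ _ _ H hH
  classical
  refine ⟨hH.polishSpace, ?_⟩
  refine ⟨⟨VV H, ?_, ?_, ?_, ?_, ?_, ?_⟩, fun n x => Iff.rfl⟩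
  · intro m n hmn x hx i hi
    exact hx i (lt_of_lt_of_le hi hmn)
  · intro n
    have h1 : ((VV H n : Subgroup H) : Set H) =
        ⋂ i ∈ Finset.range n, (fun x : H => (x : ∀ n, Q n) i) ⁻¹' {1} := by
      ext x
      simp only [SetLike.mem_coe, mem_VV, Set.mem_iInter, Finset.mem_range, Set.mem_preimage,
        Set.mem_singleton_iff]
    rw [h1]
    refine isOpen_biInter_finset fun i _ => ?_
    exact (isOpen_discrete _).preimage ((continuous_apply i).comp continuous_subtype_val)
  · intro n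
    refine ⟨fun x hx g i hi => ?_⟩
    show (g : ∀ n, Q n) i * (x : ∀ n, Q n) i * ((g : ∀ n, Q n) i)⁻¹ = 1
    rw [hx i hi, mul_one, mul_inv_cancel]
  · intro U hU
    obtain ⟨u, hu, huU⟩ := (mem_nhds_subtype _ _ _).1 hU
    have hu' : u ∈ 𝓝 (1 : ∀ n, Q n) := hu
    rw [nhds_pi, Filter.mem_pi] at hu'
    obtain ⟨I, hI, t, ht, hIt⟩ := hu'
    obtain ⟨n, hn⟩ := hI.bddAbove
    refine ⟨n + 1, fun x hx => huU (hIt ?_)⟩
    intro i hi
    have h1 : (x : ∀ n, Q n) i = 1 := hx i (Nat.lt_succ_of_le (hn hi))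
    rw [h1]
    exact mem_of_mem_nhds (ht i)
  · intro g hg
    have hstep : ∀ n i, i < n → (g (n + 1) : ∀ n, Q n) i = (g n : ∀ n, Q n) i := by
      intro n i hi
      have h1 : ((g n : ∀ n, Q n) i)⁻¹ * (g (n + 1) : ∀ n, Q n) i = 1 := hg n i hi
      rw [inv_mul_eq_one] at h1
      exact h1.symm
    have hconst : ∀ i k, (g (i + 1 + k) : ∀ n, Q n) i = (g (i + 1) : ∀ n, Q n) i := by
      intro i k
      induction k with
      | zero => rfl
      | succ k ih =>
        rw [← add_assoc, hstep _ i (by omega), ih]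
    set x : ∀ n, Q n := fun i => (g (i + 1) : ∀ n, Q n) i with hx
    have hxH : x ∈ H := by
      have hlim : Tendsto (fun n => (g n : ∀ n, Q n)) atTop (𝓝 x) := by
        rw [tendsto_pi_nhds]
        intro i
        refine tendsto_const_nhds.congr' ?_
        filter_upwards [eventually_ge_atTop (i + 1)] with n hn
        obtain ⟨k, rfl⟩ := Nat.exists_eq_add_of_le hn
        exact (hconst i k).symm
      exact hH.mem_of_tendsto hlim (Eventually.of_forall fun n => (g n).2)
    refine ⟨⟨x, hxH⟩, fun n i hi => ?_⟩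
    show ((g n : ∀ n, Q n) i)⁻¹ * x i = 1
    obtain ⟨k, rfl⟩ := Nat.exists_eq_add_of_le (Nat.succ_le_of_lt hi)
    rw [inv_mul_eq_one]
    exact hconst i k
  · intro n
    have hinj : Function.Injective fun (q : H ⧸ VV H n) (i : Fin n) =>
        ((Quotient.out q : H) : ∀ n, Q n) i := by
      intro q q' h
      have h1 : (Quotient.out q)⁻¹ * Quotient.out q' ∈ VV H n := by
        intro i hi
        show (((Quotient.out q : H) : ∀ n, Q n) i)⁻¹ * ((Quotient.out q' : H) : ∀ n, Q n) i = 1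
        rw [inv_mul_eq_one]
        exact congrFun h ⟨i, hi⟩
      have h2 := QuotientGroup.eq.2 h1
      rwa [QuotientGroup.out_eq', QuotientGroup.out_eq'] at h2
    exact hinj.countable

end Pool.Agent.Y768.HN
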